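import Mathlib

set_option autoImplicit false

open Set Filter Topology MeasureTheory

namespace Pool.Agent.Results.MP_ecd4e3_gt.WildBall

/-- A continuous function with infinite variation on every nondegenerate interval. -/
noncomputable def w (x : ℝ) : ℝ := ∑' k : ℕ, (1 / 4 : ℝ) ^ k * Real.sin (2 * Real.pi * 16 ^ k * x)

lemma w_term_le (k : ℕ) (x : ℝ) :
    ‖(1 / 4 : ℝ) ^ k * Real.sin (2 * Real.pi * 16 ^ k * x)‖ ≤ (1 / 4 : ℝ) ^ k := by
  rw [norm_mul, Real.norm_eq_abs, Real.norm_eq_abs, abs_of_nonneg (by positivity : (0:ℝ) ≤ (1/4)^k)]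
  have := Real.abs_sin_le_one (2 * Real.pi * 16 ^ k * x)
  have h : (0:ℝ) ≤ (1/4)^k := by positivity
  nlinarith

lemma summable_quarter : Summable fun k : ℕ => (1 / 4 : ℝ) ^ k :=
  summable_geometric_of_lt_one (by norm_num) (by norm_num)

lemma w_summable (x : ℝ) :
    Summable fun k : ℕ => (1 / 4 : ℝ) ^ k * Real.sin (2 * Real.pi * 16 ^ k * x) :=
  Summable.of_norm_bounded summable_quarter fun k => w_term_le k x

lemma w_continuous : Continuous w :=
  continuous_tsum (fun k => by fun_prop) summable_quarter w_term_le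

lemma abs_w_le (x : ℝ) : |w x| ≤ 2 := by
  have h := tsum_of_norm_bounded (f := fun k : ℕ => (1 / 4 : ℝ) ^ k * Real.sin (2 * Real.pi * 16 ^ k * x))
    (hasSum_geometric_of_lt_one (by norm_num : (0:ℝ) ≤ 1/4) (by norm_num)) (fun k => w_term_le k x)
  rw [Real.norm_eq_abs] at h
  calc |w x| ≤ (1 - 1/4)⁻¹ := h
    _ ≤ 2 := by norm_num

lemma w_neg (x : ℝ) : w (-x) = -w x := by
  unfold w
  rw [← tsum_neg]
  congr 1
  funext k
  rw [mul_neg, Real.sin_neg, mul_neg]

/-- The points of the grid of step `1 / (4 * 16 ^ m)`. -/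
noncomputable def gr (m : ℕ) (j : ℤ) : ℝ := j / (4 * 16 ^ m)

lemma sin_quarter_sq (j : ℤ) :
    (Real.sin (Real.pi * (j + 1) / 2) - Real.sin (Real.pi * j / 2)) ^ 2 = 1 := by
  have h1 : Real.sin (Real.pi * (j + 1) / 2) = Real.cos (Real.pi * j / 2) := by
    rw [← Real.sin_add_pi_div_two]; congr 1; ring
  rw [h1]
  have h2 : Real.sin (Real.pi * j) = 0 := by rw [mul_comm]; exact Real.sin_int_mul_pi j
  have h3 : Real.sin (Real.pi * j) = 2 * Real.sin (Real.pi * j / 2) * Real.cos (Real.pi * j / 2) := by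
    rw [← Real.sin_two_mul]; congr 1; ring
  have h4 := Real.sin_sq_add_cos_sq (Real.pi * j / 2)
  nlinarith

lemma w_diff (m : ℕ) (j : ℤ) : (2 / 5 : ℝ) * (1 / 4) ^ m ≤ |w (gr m (j + 1)) - w (gr m j)| := by
  have hd : w (gr m (j + 1)) - w (gr m j) = ∑' k : ℕ, ((1 / 4 : ℝ) ^ k *
      (Real.sin (2 * Real.pi * 16 ^ k * gr m (j + 1)) - Real.sin (2 * Real.pi * 16 ^ k * gr m j))) := by
    unfold w
    rw [← (w_summable _).tsum_sub (w_summable _)]
    congr 1; funext k; ring
  have hz : ∀ k : ℕ, k ∉ Finset.range (m + 1) → ((1 / 4 : ℝ) ^ k *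
      (Real.sin (2 * Real.pi * 16 ^ k * gr m (j + 1)) - Real.sin (2 * Real.pi * 16 ^ k * gr m j))) = 0 := by
    intro k hk
    have hk' : m + 1 ≤ k := by simpa using hk
    obtain ⟨l, rfl⟩ := Nat.exists_eq_add_of_le hk'
    have key : ∀ i : ℤ, Real.sin (2 * Real.pi * 16 ^ (m + 1 + l) * gr m i) = 0 := by
      intro i
      have : 2 * Real.pi * 16 ^ (m + 1 + l) * gr m i = ((8 * 16 ^ l * i : ℤ) : ℝ) * Real.pi := by
        unfold gr
        have h16 : (16 : ℝ) ^ m ≠ 0 := by positivity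
        field_simp
        push_cast
        ring
      rw [this]
      exact Real.sin_int_mul_pi _
    rw [key, key, sub_zero, mul_zero]
  rw [hd, tsum_eq_sum hz, Finset.sum_range_succ]
  have hmain : |(1 / 4 : ℝ) ^ m *
      (Real.sin (2 * Real.pi * 16 ^ m * gr m (j + 1)) - Real.sin (2 * Real.pi * 16 ^ m * gr m j))| =
      (1 / 4 : ℝ) ^ m := by
    have e1 : ∀ i : ℤ, 2 * Real.pi * 16 ^ m * gr m i = Real.pi * i / 2 := by
      intro i
      unfold gr
      have h16 : (16 : ℝ) ^ m ≠ 0 := by positivity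
      field_simp
      ring
    rw [e1, e1, abs_mul, abs_of_nonneg (by positivity : (0:ℝ) ≤ (1/4)^m)]
    have h := sin_quarter_sq j
    have h2 : |Real.sin (Real.pi * ((j + 1 : ℤ) : ℝ) / 2) - Real.sin (Real.pi * j / 2)| = 1 := by
      have : |Real.sin (Real.pi * ((j + 1 : ℤ) : ℝ) / 2) - Real.sin (Real.pi * j / 2)| ^ 2 = 1 := by
        rw [sq_abs]; push_cast; exact h
      have h0 := abs_nonneg (Real.sin (Real.pi * ((j + 1 : ℤ) : ℝ) / 2) - Real.sin (Real.pi * j / 2))
      nlinarith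
    rw [h2, mul_one]
  have hlow : |∑ k ∈ Finset.range m, ((1 / 4 : ℝ) ^ k *
      (Real.sin (2 * Real.pi * 16 ^ k * gr m (j + 1)) - Real.sin (2 * Real.pi * 16 ^ k * gr m j)))| ≤
      (3 / 5) * (1 / 4 : ℝ) ^ m := by
    have hterm : ∀ k ∈ Finset.range m, |(1 / 4 : ℝ) ^ k *
        (Real.sin (2 * Real.pi * 16 ^ k * gr m (j + 1)) - Real.sin (2 * Real.pi * 16 ^ k * gr m j))| ≤
        4 ^ k * (Real.pi / (2 * 16 ^ m)) := by
      intro k _
      rw [abs_mul, abs_of_nonneg (by positivity : (0:ℝ) ≤ (1/4)^k)]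
      have hs : |Real.sin (2 * Real.pi * 16 ^ k * gr m (j + 1)) - Real.sin (2 * Real.pi * 16 ^ k * gr m j)| ≤
          |2 * Real.pi * 16 ^ k * gr m (j + 1) - 2 * Real.pi * 16 ^ k * gr m j| := by
        have := Real.abs_sin_sub_sin_le (2 * Real.pi * 16 ^ k * gr m (j + 1)) (2 * Real.pi * 16 ^ k * gr m j)
        exact this
      have hx : 2 * Real.pi * 16 ^ k * gr m (j + 1) - 2 * Real.pi * 16 ^ k * gr m j =
          16 ^ k * (Real.pi / (2 * 16 ^ m)) := by
        unfold gr
        have h16 : (16 : ℝ) ^ m ≠ 0 := by positivity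
        field_simp
        push_cast
        ring
      rw [hx, abs_of_nonneg (show (0:ℝ) ≤ 16 ^ k * (Real.pi / (2 * 16 ^ m)) by positivity)] at hs
      calc (1 / 4 : ℝ) ^ k * _ ≤ (1 / 4 : ℝ) ^ k * (16 ^ k * (Real.pi / (2 * 16 ^ m))) :=
            mul_le_mul_of_nonneg_left hs (by positivity)
        _ = 4 ^ k * (Real.pi / (2 * 16 ^ m)) := by
            rw [← mul_assoc, ← mul_pow]; norm_num
    refine (Finset.abs_sum_le_sum_abs _ _).trans ((Finset.sum_le_sum hterm).trans ?_)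
    rw [← Finset.sum_mul]
    have hg : ∑ k ∈ Finset.range m, (4 : ℝ) ^ k ≤ 4 ^ m / 3 := by
      rw [geom_sum_eq (by norm_num)]
      have : (4:ℝ) ^ m ≥ 0 := by positivity
      norm_num
      linarith
    have hpi : Real.pi < 3.15 := Real.pi_lt_d2
    have h416 : (4 : ℝ) ^ m / 16 ^ m = (1 / 4) ^ m := by
      rw [← div_pow]; norm_num
    calc (∑ k ∈ Finset.range m, (4 : ℝ) ^ k) * (Real.pi / (2 * 16 ^ m)) ≤
          (4 ^ m / 3) * (Real.pi / (2 * 16 ^ m)) := mul_le_mul_of_nonneg_right hg (by positivity)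
      _ = (Real.pi / 6) * ((4 : ℝ) ^ m / 16 ^ m) := by ring
      _ ≤ (3 / 5) * (1 / 4) ^ m := by
          rw [h416]
          have : (0:ℝ) ≤ (1/4)^m := by positivity
          nlinarith
  set S := ∑ k ∈ Finset.range m, ((1 / 4 : ℝ) ^ k *
      (Real.sin (2 * Real.pi * 16 ^ k * gr m (j + 1)) - Real.sin (2 * Real.pi * 16 ^ k * gr m j)))
  set M := (1 / 4 : ℝ) ^ m *
      (Real.sin (2 * Real.pi * 16 ^ m * gr m (j + 1)) - Real.sin (2 * Real.pi * 16 ^ m * gr m j))
  have : |M| - |S| ≤ |S + M| := by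
    have := abs_sub_abs_le_abs_sub M (-S)
    rw [abs_neg, sub_neg_eq_add, add_comm M S] at this
    exact this
  linarith

/-- If `x` starts at `u 0` and ends at or beyond `u N` then `w ∘ x` has at least the variation of
`w` along the increasing values `u 0, ..., u N`. -/
lemma chain (x : ℝ → ℝ) (b : ℝ) : ∀ (N : ℕ) (u : ℕ → ℝ) (s : ℝ), Monotone u → s ≤ b →
    ContinuousOn x (Icc s b) → x s = u 0 → u N ≤ x b →
    ∑ i ∈ Finset.range N, edist (w (u i)) (w (u (i + 1))) ≤ eVariationOn (fun t => w (x t)) (Icc s b) := by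
  intro N
  induction N with
  | zero => intro u s _ _ _ _ _; simp
  | succ N ih =>
    intro u s hu hsb hc h0 hN
    have hmem : u 1 ∈ Icc (x s) (x b) := ⟨by rw [h0]; exact hu (by omega), (hu (by omega)).trans hN⟩
    obtain ⟨s', hs', hxs'⟩ := intermediate_value_Icc hsb hc hmem
    have ih' := ih (fun i => u (i + 1)) s' (fun i j hij => hu (by omega)) hs'.2
      (hc.mono (Icc_subset_Icc_left hs'.1)) (by simpa using hxs') hN
    have hsplit := eVariationOn.Icc_add_Icc (fun t => w (x t)) (s := Icc s b) hs'.1 hs'.2 hs'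
    have e1 : Icc s b ∩ Icc s s' = Icc s s' := by
      rw [inter_eq_right]; exact Icc_subset_Icc_right hs'.2
    have e2 : Icc s b ∩ Icc s' b = Icc s' b := by
      rw [inter_eq_right]; exact Icc_subset_Icc_left hs'.1
    rw [e1, e2, inter_self] at hsplit
    rw [← hsplit, Finset.sum_range_succ', add_comm]
    refine add_le_add ?_ ih'
    have := eVariationOn.edist_le (fun t => w (x t)) (s := Icc s s')
      (left_mem_Icc.2 hs'.1) (right_mem_Icc.2 hs'.1)
    simp only [h0, hxs'] at this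
    simpa using this

lemma var_top_of_lt (x : ℝ → ℝ) (a b s t : ℝ) (hc : ContinuousOn x (Icc a b)) (hs : s ∈ Icc a b)
    (ht : t ∈ Icc a b) (hst : s ≤ t) (hlt : x s < x t) :
    eVariationOn (fun r => w (x r)) (Icc a b) = ⊤ := by
  refine ENNReal.eq_top_of_forall_nnreal_le fun K => ?_
  set d := x t - x s with hd
  have hd0 : 0 < d := by rw [hd]; linarith
  -- choose the scale
  obtain ⟨m, hm⟩ : ∃ m : ℕ, (K + 1) / d ≤ (4 : ℝ) ^ m := by
    obtain ⟨m, hm⟩ := pow_unbounded_of_one_lt ((K + 1) / d) (by norm_num : (1:ℝ) < 4)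
    exact ⟨m, hm.le⟩
  have h4m : (1 : ℝ) ≤ 4 ^ m := one_le_pow₀ (by norm_num)
  set c : ℝ := 4 * 16 ^ m with hcdef
  have hc0 : 0 < c := by positivity
  set j₀ : ℤ := ⌈x s * c⌉ with hj
  set j₁ : ℤ := ⌊x t * c⌋ with hj1
  by_cases hle : j₀ ≤ j₁
  swap
  · -- impossible for large scales
    exfalso
    push Not at hle
    have h1 : x s * c ≤ j₀ := Int.le_ceil _
    have h1' : (j₀ : ℝ) < x s * c + 1 := Int.ceil_lt_add_one _
    have h2 : x t * c < j₁ + 1 := Int.lt_floor_add_one _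
    have h3 : (j₁ : ℝ) + 1 ≤ j₀ := by exact_mod_cast hle
    have h4 : d * c < 1 := by rw [hd]; nlinarith
    have h5 : (K + 1 : ℝ) ≤ 4 ^ m * d := by rwa [div_le_iff₀ hd0] at hm
    have h6 : (4 : ℝ) ^ m ≤ c := by
      rw [hcdef]
      have : (4 : ℝ) ^ m ≤ 16 ^ m := pow_le_pow_left₀ (by norm_num) (by norm_num) m
      nlinarith
    have hK : (0 : ℝ) ≤ K := K.2
    nlinarith
  obtain ⟨N, hN⟩ := Int.eq_ofNat_of_zero_le (sub_nonneg.2 hle)
  have hg0 : x s ≤ gr m j₀ := by
    unfold gr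
    rw [le_div_iff₀ hc0]; exact Int.le_ceil _
  have hg1 : gr m (j₀ + N) ≤ x t := by
    unfold gr
    rw [div_le_iff₀ hc0]
    have : ((j₀ + N : ℤ) : ℝ) = j₁ := by
      have : j₀ + (N : ℤ) = j₁ := by omega
      exact_mod_cast this
    rw [this]; exact Int.floor_le _
  have hgm : Monotone fun i : ℕ => gr m (j₀ + i) := by
    intro i j hij
    unfold gr
    refine div_le_div_of_nonneg_right ?_ hc0.le
    push_cast
    have : (i : ℝ) ≤ j := by exact_mod_cast hij
    linarith
  have hst' : ContinuousOn x (Icc s t) := hc.mono (Icc_subset_Icc hs.1 ht.2)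
  have hmem : gr m j₀ ∈ Icc (x s) (x t) := ⟨hg0, by
    have := hgm (Nat.zero_le N)
    simp only [Nat.cast_zero, add_zero] at this
    exact this.trans hg1⟩
  obtain ⟨s', hs', hxs'⟩ := intermediate_value_Icc hst hst' hmem
  have hch := chain x t N (fun i => gr m (j₀ + i)) s' hgm hs'.2
    (hst'.mono (Icc_subset_Icc_left hs'.1)) (by simpa using hxs') hg1
  refine le_trans ?_ (hch.trans (eVariationOn.mono _
    (Icc_subset_Icc (hs.1.trans hs'.1) ht.2)))
  have hterm : ∀ i ∈ Finset.range N, ENNReal.ofReal ((2 / 5 : ℝ) * (1 / 4) ^ m) ≤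
      edist (w (gr m (j₀ + (i : ℕ)))) (w (gr m (j₀ + ((i + 1 : ℕ) : ℤ)))) := by
    intro i _
    rw [edist_dist, Real.dist_eq, abs_sub_comm]
    refine ENNReal.ofReal_le_ofReal ?_
    have := w_diff m (j₀ + i)
    push_cast
    rw [← add_assoc]
    exact this
  refine le_trans ?_ (Finset.sum_le_sum hterm)
  rw [Finset.sum_const, Finset.card_range, nsmul_eq_mul]
  have hNr : (4 : ℝ) * 16 ^ m * d - 2 ≤ N := by
    have h1' : (j₀ : ℝ) < x s * c + 1 := Int.ceil_lt_add_one _
    have h2 : x t * c < j₁ + 1 := Int.lt_floor_add_one _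
    have h3 : ((j₁ - j₀ : ℤ) : ℝ) = N := by rw [hN]; simp
    push_cast at h3
    rw [hcdef] at h1' h2
    rw [hd]
    nlinarith
  have h5 : (K + 1 : ℝ) ≤ 4 ^ m * d := by rwa [div_le_iff₀ hd0] at hm
  have hq : (0 : ℝ) < (1 / 4) ^ m := by positivity
  have hq1 : (1 / 4 : ℝ) ^ m ≤ 1 := pow_le_one₀ (by norm_num) (by norm_num)
  have h16 : (16 : ℝ) ^ m * (1 / 4) ^ m = 4 ^ m := by rw [← mul_pow]; norm_num
  have hfin : (K : ℝ) ≤ N * ((2 / 5) * (1 / 4) ^ m) := by
    have e1 : ((4 : ℝ) * 16 ^ m * d - 2) * ((2 / 5) * (1 / 4) ^ m) =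
        (8 / 5) * (4 ^ m * d) - (4 / 5) * (1 / 4) ^ m := by
      rw [← h16]; ring
    have e2 : ((4 : ℝ) * 16 ^ m * d - 2) * ((2 / 5) * (1 / 4) ^ m) ≤ N * ((2 / 5) * (1 / 4) ^ m) :=
      mul_le_mul_of_nonneg_right hNr (by positivity)
    have hK : (0 : ℝ) ≤ K := K.2
    nlinarith
  calc (K : ENNReal) = ENNReal.ofReal (K : ℝ) := (ENNReal.ofReal_coe_nnreal).symm
    _ ≤ ENNReal.ofReal (N * ((2 / 5) * (1 / 4) ^ m)) := ENNReal.ofReal_le_ofReal hfin
    _ = (N : ENNReal) * ENNReal.ofReal ((2 / 5) * (1 / 4) ^ m) := by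
        rw [ENNReal.ofReal_mul (by positivity), ENNReal.ofReal_natCast]

/-- `w ∘ x` has infinite variation as soon as the continuous function `x` is not constant. -/
lemma var_top (x : ℝ → ℝ) (a b : ℝ) (hc : ContinuousOn x (Icc a b))
    (hx : ∃ s ∈ Icc a b, ∃ t ∈ Icc a b, x s ≠ x t) :
    eVariationOn (fun r => w (x r)) (Icc a b) = ⊤ := by
  obtain ⟨s, hs, t, ht, hne⟩ := hx
  have main : ∀ s ∈ Icc a b, ∀ t ∈ Icc a b, s ≤ t → x s ≠ x t →
      eVariationOn (fun r => w (x r)) (Icc a b) = ⊤ := by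
    intro s hs t ht hst hne
    rcases lt_or_gt_of_ne hne with h | h
    · exact var_top_of_lt x a b s t hc hs ht hst h
    · have h1 := var_top_of_lt (fun r => -x r) a b s t hc.neg hs ht hst (by simpa using h)
      rw [← h1]
      unfold eVariationOn
      refine iSup_congr fun p => Finset.sum_congr rfl fun i _ => ?_
      simp only [w_neg, edist_neg_neg]
  rcases le_total s t with h | h
  · exact main s hs t ht h hne
  · exact main t ht s hs h hne.symm

lemma var_sub_le (f g : ℝ → ℝ) (S : Set ℝ) :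
    eVariationOn (fun r => f r - g r) S ≤ eVariationOn f S + eVariationOn g S := by
  refine iSup_le fun p => ?_
  calc ∑ i ∈ Finset.range p.1, edist (f (p.2.1 (i + 1)) - g (p.2.1 (i + 1))) (f (p.2.1 i) - g (p.2.1 i))
      ≤ ∑ i ∈ Finset.range p.1, (edist (f (p.2.1 (i + 1))) (f (p.2.1 i)) +
          edist (g (p.2.1 (i + 1))) (g (p.2.1 i))) :=
        Finset.sum_le_sum fun i _ => by
          rw [sub_eq_add_neg, sub_eq_add_neg]
          refine (edist_add_add_le _ _ _ _).trans ?_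
          rw [edist_neg_neg]
    _ ≤ _ := by
        rw [Finset.sum_add_distrib]
        exact add_le_add (eVariationOn.sum_le p.2.2.1 p.2.2.2) (eVariationOn.sum_le p.2.2.1 p.2.2.2)

/-- Adding a function of finite variation to `w ∘ x` keeps the variation infinite. -/
lemma var_add_top (y x : ℝ → ℝ) (a b : ℝ) (hy : eVariationOn y (Icc a b) ≠ ⊤)
    (hc : ContinuousOn x (Icc a b)) (hx : ∃ s ∈ Icc a b, ∃ t ∈ Icc a b, x s ≠ x t) :
    eVariationOn (fun r => y r + w (x r)) (Icc a b) = ⊤ := by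
  by_contra h
  have h1 := var_top x a b hc hx
  have h2 := var_sub_le (fun r => y r + w (x r)) y (Icc a b)
  simp only [add_sub_cancel_left] at h2
  rw [h1, top_le_iff, ENNReal.add_eq_top] at h2
  exact h2.elim h hy

/-- The wild self-embedding of `ℝ ^ (k + 2)`. -/
noncomputable def F (k : ℕ) (x : Fin (k + 2) → ℝ) : Fin (k + 2) → ℝ :=
  Fin.cases (x 0 + w (x (Fin.last (k + 1)) + w (x (Fin.castSucc (Fin.last k)))))
    (fun i : Fin (k + 1) => x i.succ + w (x i.castSucc))

lemma F_zero (k : ℕ) (x : Fin (k + 2) → ℝ) :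
    F k x 0 = x 0 + w (x (Fin.last (k + 1)) + w (x (Fin.castSucc (Fin.last k)))) := rfl

lemma F_succ (k : ℕ) (x : Fin (k + 2) → ℝ) (i : Fin (k + 1)) :
    F k x i.succ = x i.succ + w (x i.castSucc) := rfl

lemma F_zero' (k : ℕ) (x : Fin (k + 2) → ℝ) :
    F k x 0 = x 0 + w (F k x (Fin.last k).succ) := rfl

lemma F_continuous (k : ℕ) : Continuous (F k) := by
  refine continuous_pi fun i => ?_
  refine Fin.cases ?_ (fun i => ?_) i
  · simp only [F_zero]
    have := w_continuous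
    fun_prop
  · simp only [F_succ]
    have := w_continuous
    fun_prop

lemma F_injective (k : ℕ) : Function.Injective (F k) := by
  intro x y h
  have h0 : x 0 = y 0 := by
    have h1 := congrFun h 0
    rw [F_zero', F_zero', h] at h1
    exact add_right_cancel h1
  funext i
  refine Fin.induction h0 (fun i ih => ?_) i
  have h1 := congrFun h i.succ
  rw [F_succ, F_succ, ih] at h1
  exact add_right_cancel h1

lemma abs_F_sub_le (k : ℕ) (x : Fin (k + 2) → ℝ) (i : Fin (k + 2)) : |F k x i - x i| ≤ 2 := by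
  refine Fin.cases ?_ (fun i => ?_) i
  · rw [F_zero, add_sub_cancel_left]; exact abs_w_le _
  · rw [F_succ, add_sub_cancel_left]; exact abs_w_le _

lemma F_isClosedMap (k : ℕ) : IsClosedMap (F k) := by
  have h : IsProperMap (F k) := by
    rw [isProperMap_iff_tendsto_cocompact]
    refine ⟨F_continuous k, ?_⟩
    rw [← Metric.cobounded_eq_cocompact, ← tendsto_norm_atTop_iff_cobounded]
    have h1 : Tendsto (fun x : Fin (k + 2) → ℝ => ‖x‖ - 2) (Bornology.cobounded _) atTop :=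
      tendsto_atTop_add_const_right _ _ tendsto_norm_cobounded_atTop
    refine tendsto_atTop_mono (fun x => ?_) h1
    have h2 : ‖F k x - x‖ ≤ 2 := by
      rw [pi_norm_le_iff_of_nonneg (by norm_num)]
      intro i
      rw [Pi.sub_apply, Real.norm_eq_abs]
      exact abs_F_sub_le k x i
    have h3 : ‖x‖ ≤ ‖F k x‖ + ‖F k x - x‖ := by
      have := norm_sub_le (F k x) (F k x - x)
      simpa using this
    linarith
  exact h.isClosedMap

lemma F_isEmbedding (k : ℕ) : IsEmbedding (F k) :=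
  (IsClosedEmbedding.of_continuous_injective_isClosedMap (F_continuous k) (F_injective k)
    (F_isClosedMap k)).isEmbedding

/-- Some coordinate of `F ∘ γ` has infinite variation, for every non-constant `γ` of bounded
variation. -/
lemma F_var (k : ℕ) (γ : ℝ → Fin (k + 2) → ℝ) (a b : ℝ)
    (hc : ∀ i, ContinuousOn (fun t => γ t i) (Icc a b))
    (hv : ∀ i, eVariationOn (fun t => γ t i) (Icc a b) ≠ ⊤)
    (hne : ∃ i, ∃ s ∈ Icc a b, ∃ t ∈ Icc a b, γ s i ≠ γ t i) :
    ∃ i, eVariationOn (fun t => F k (γ t) i) (Icc a b) = ⊤ := by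
  by_cases h : ∃ j : Fin (k + 1), ∃ s ∈ Icc a b, ∃ t ∈ Icc a b, γ s j.castSucc ≠ γ t j.castSucc
  · obtain ⟨j, hj⟩ := h
    exact ⟨j.succ, var_add_top (fun t => γ t j.succ) (fun t => γ t j.castSucc) a b (hv _) (hc _) hj⟩
  · push Not at h
    obtain ⟨i, s, hs, t, ht, hst⟩ := hne
    have hi : i = Fin.last (k + 1) := by
      by_contra hi
      obtain ⟨j, rfl⟩ := Fin.exists_castSucc_eq.2 hi
      exact hst (h j s hs t ht)
    subst hi
    refine ⟨0, ?_⟩
    have hcst : ∀ r ∈ Icc a b, γ r (Fin.last k).castSucc = γ s (Fin.last k).castSucc :=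
      fun r hr => h _ r hr s hs
    have hcont : ContinuousOn (fun r => γ r (Fin.last (k + 1)) + w (γ r (Fin.last k).castSucc))
        (Icc a b) := (hc _).add (w_continuous.comp_continuousOn (hc _))
    refine var_add_top (fun t => γ t 0)
      (fun r => γ r (Fin.last (k + 1)) + w (γ r (Fin.last k).castSucc)) a b (hv _) hcont
      ⟨s, hs, t, ht, ?_⟩
    simp only [hcst t ht]
    intro he
    exact hst (add_right_cancel he)

/-- The length of the curve `γ` on `[a, b]`. -/
noncomputable def len {n : ℕ} (γ : ℝ → EuclideanSpace ℝ (Fin n)) (a b : ℝ) : ENNReal :=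
  eVariationOn γ (Icc a b)

/-- `f` increases the length of every rectifiable curve in `U`. -/
def LengthIncreasing {n : ℕ} (U : Set (EuclideanSpace ℝ (Fin n)))
    (f : U → EuclideanSpace ℝ (Fin n)) : Prop :=
  ∀ (γ : ℝ → U) (a b : ℝ), a ≤ b → ContinuousOn γ (Icc a b) →
    len (fun t => (γ t : EuclideanSpace ℝ (Fin n))) a b ≠ ⊤ →
    len (fun t => (γ t : EuclideanSpace ℝ (Fin n))) a b ≤ len (fun t => f (γ t)) a b

section high

/-- The wild embedding of `ℝ ^ (k + 2)` into its unit ball. -/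
noncomputable def G (k : ℕ) (x : EuclideanSpace ℝ (Fin (k + 2))) : EuclideanSpace ℝ (Fin (k + 2)) :=
  (1 / (4 * (k + 2) : ℝ)) • WithLp.toLp 2 (F k (fun i => Real.arctan (x i)))

lemma arctan_isEmbedding : IsEmbedding Real.arctan :=
  Real.arctan_strictMono.isEmbedding_of_ordConnected (by rw [Real.range_arctan]; exact ordConnected_Ioo)

lemma G_isEmbedding (k : ℕ) : IsEmbedding (G k) := by
  have h1 : IsEmbedding (fun x : EuclideanSpace ℝ (Fin (k + 2)) => WithLp.ofLp x) :=
    (PiLp.continuousLinearEquiv 2 ℝ (fun _ : Fin (k + 2) => ℝ)).toHomeomorph.isEmbedding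
  have h2 : IsEmbedding (Pi.map (fun _ : Fin (k + 2) => Real.arctan)) :=
    IsEmbedding.piMap fun _ => arctan_isEmbedding
  have h3 : IsEmbedding (fun x : Fin (k + 2) → ℝ => (WithLp.toLp 2 x : EuclideanSpace ℝ (Fin (k + 2)))) :=
    (PiLp.continuousLinearEquiv 2 ℝ (fun _ : Fin (k + 2) => ℝ)).symm.toHomeomorph.isEmbedding
  have hs : (1 / (4 * (k + 2) : ℝ)) ≠ 0 := by positivity
  have h4 : IsEmbedding (fun x : EuclideanSpace ℝ (Fin (k + 2)) => (1 / (4 * (k + 2) : ℝ)) • x) :=
    (Homeomorph.smulOfNeZero (1 / (4 * (k + 2) : ℝ)) hs).isEmbedding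
  exact h4.comp (h3.comp ((F_isEmbedding k).comp (h2.comp h1)))

lemma G_norm_le (k : ℕ) (x : EuclideanSpace ℝ (Fin (k + 2))) : ‖G k x‖ ≤ 1 := by
  have hF : ∀ i, |F k (fun i => Real.arctan (x i)) i| ≤ 4 := by
    intro i
    have h1 := abs_F_sub_le k (fun i => Real.arctan (x i)) i
    have h2 : |Real.arctan (x i)| ≤ 2 := by
      rw [abs_le]
      have := Real.arctan_lt_pi_div_two (x i)
      have := Real.neg_pi_div_two_lt_arctan (x i)
      have := Real.pi_lt_d2
      constructor <;> linarith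
    calc |F k (fun i => Real.arctan (x i)) i| =
        |(F k (fun i => Real.arctan (x i)) i - Real.arctan (x i)) + Real.arctan (x i)| := by
          rw [sub_add_cancel]
      _ ≤ _ := abs_add_le _ _
      _ ≤ 4 := by linarith
  unfold G
  rw [norm_smul, Real.norm_eq_abs, abs_of_pos (by positivity : (0:ℝ) < 1 / (4 * (k + 2)))]
  rw [div_mul_eq_mul_div, one_mul, div_le_one (by positivity)]
  rw [EuclideanSpace.norm_eq]
  rw [Real.sqrt_le_left (by positivity)]
  calc ∑ i, ‖F k (fun i => Real.arctan (x i)) i‖ ^ 2 ≤ ∑ _i : Fin (k + 2), (16 : ℝ) := by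
        refine Finset.sum_le_sum fun i _ => ?_
        have := hF i
        rw [Real.norm_eq_abs]
        have h0 := abs_nonneg (F k (fun i => Real.arctan (x i)) i)
        nlinarith
    _ = 16 * (k + 2) := by
        rw [Finset.sum_const, Finset.card_univ, Fintype.card_fin, nsmul_eq_mul]; push_cast; ring
    _ ≤ (4 * (k + 2)) ^ 2 := by
        have : (0:ℝ) ≤ k := Nat.cast_nonneg k
        nlinarith

lemma lipschitz_arctan_coord (k : ℕ) (i : Fin (k + 2)) :
    LipschitzWith 1 (fun x : EuclideanSpace ℝ (Fin (k + 2)) => Real.arctan (x i)) := by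
  have h1 : LipschitzWith 1 Real.arctan := by
    refine lipschitzWith_of_nnnorm_deriv_le Real.differentiable_arctan fun x => ?_
    rw [← NNReal.coe_le_coe, coe_nnnorm, Real.deriv_arctan, Real.norm_eq_abs,
      abs_of_pos (by positivity), NNReal.coe_one]
    rw [div_le_one (by positivity)]
    nlinarith [sq_nonneg x]
  have h2 : LipschitzWith 1 (fun x : EuclideanSpace ℝ (Fin (k + 2)) => x i) := by
    refine LipschitzWith.of_dist_le_mul fun x y => ?_
    rw [NNReal.coe_one, one_mul, dist_eq_norm, dist_eq_norm]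
    exact PiLp.norm_apply_le (x - y) i
  have h3 := h1.comp h2
  rw [one_mul] at h3
  exact h3

/-- Every non-constant rectifiable curve has an image of infinite length. -/
lemma G_len (k : ℕ) (γ : ℝ → EuclideanSpace ℝ (Fin (k + 2))) (a b : ℝ)
    (hc : ContinuousOn γ (Icc a b)) (hv : len γ a b ≠ ⊤)
    (hne : ∃ s ∈ Icc a b, ∃ t ∈ Icc a b, γ s ≠ γ t) : len (fun t => G k (γ t)) a b = ⊤ := by
  obtain ⟨s, hs, t, ht, hst⟩ := hne
  obtain ⟨i, hi⟩ : ∃ i, γ s i ≠ γ t i := by
    by_contra h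
    push Not at h
    exact hst (by ext i; exact h i)
  have hcoord : ∀ i, ContinuousOn (fun t => Real.arctan (γ t i)) (Icc a b) := fun i =>
    (lipschitz_arctan_coord k i).continuous.comp_continuousOn hc
  have hvar : ∀ i, eVariationOn (fun t => Real.arctan (γ t i)) (Icc a b) ≠ ⊤ := by
    intro i
    have h := ((lipschitz_arctan_coord k i).lipschitzOnWith (s := univ)).comp_eVariationOn_le
      (g := γ) (s := Icc a b) (mapsTo_univ _ _)
    rw [ENNReal.coe_one, one_mul] at h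
    exact ne_top_of_le_ne_top hv h
  obtain ⟨j, hj⟩ := F_var k (fun t i => Real.arctan (γ t i)) a b hcoord hvar
    ⟨i, s, hs, t, ht, fun h => hi (Real.arctan_injective h)⟩
  by_contra hfin
  set c : NNReal := ⟨4 * (k + 2), by positivity⟩ with hcdef
  have hL : LipschitzWith c (fun v : EuclideanSpace ℝ (Fin (k + 2)) => (4 * (k + 2) : ℝ) * v j) := by
    refine LipschitzWith.of_dist_le_mul fun x y => ?_
    rw [Real.dist_eq, ← mul_sub, abs_mul, abs_of_pos (by positivity : (0:ℝ) < 4 * (k + 2)),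
      dist_eq_norm]
    refine mul_le_mul_of_nonneg_left ?_ (by positivity)
    exact PiLp.norm_apply_le (x - y) j
  have h := (hL.lipschitzOnWith (s := univ)).comp_eVariationOn_le
    (g := fun t => G k (γ t)) (s := Icc a b) (mapsTo_univ _ _)
  have he : ((fun v : EuclideanSpace ℝ (Fin (k + 2)) => (4 * (k + 2) : ℝ) * v j) ∘
      fun t => G k (γ t)) = fun t => F k (fun i => Real.arctan (γ t i)) j := by
    funext t
    simp only [Function.comp, G, PiLp.smul_apply, smul_eq_mul]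
    have : (4 * (k + 2) : ℝ) ≠ 0 := by positivity
    field_simp
  rw [he, hj, top_le_iff] at h
  exact ENNReal.mul_ne_top ENNReal.coe_ne_top hfin h

end high

section one

abbrev E1 : Type := EuclideanSpace ℝ (Fin 1)

lemma E1_ext {x y : E1} (h : x 0 = y 0) : x = y := by
  ext i
  rw [Subsingleton.elim i 0]
  exact h

lemma E1_dist (x y : E1) : dist x y = |x 0 - y 0| := by
  rw [EuclideanSpace.dist_eq]
  simp [Real.dist_eq, Real.sqrt_sq_eq_abs]

lemma strip (a b : ℝ) : volume {z : E1 | a < z 0 ∧ z 0 ≤ b} = ENNReal.ofReal (b - a) := by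
  have h1 := EuclideanSpace.volume_preserving_symm_measurableEquiv_toLp (Fin 1)
  have h2 := volume_preserving_funUnique (Fin 1) ℝ
  have h3 := h2.comp h1
  have h4 := h3.measure_preimage (s := Ioc a b) measurableSet_Ioc.nullMeasurableSet
  rw [Real.volume_Ioc] at h4
  rw [← h4]
  rfl

variable (U : Set E1)

noncomputable def phi (x : E1) : ℝ := (volume (U ∩ {y : E1 | y 0 ≤ x 0})).toReal

lemma meas_le (a : ℝ) : MeasurableSet {y : E1 | y 0 ≤ a} :=
  (isClosed_le (by fun_prop) continuous_const).measurableSet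

lemma meas_strip (a b : ℝ) : MeasurableSet {z : E1 | a < z 0 ∧ z 0 ≤ b} := by
  have h1 : MeasurableSet {z : E1 | a < z 0} := (isOpen_lt continuous_const (by fun_prop)).measurableSet
  exact h1.inter (meas_le b)

lemma phi_sub (hU : volume U ≤ 1) {x y : E1} (hxy : x 0 ≤ y 0) :
    phi U y - phi U x = (volume (U ∩ {z : E1 | x 0 < z 0 ∧ z 0 ≤ y 0})).toReal := by
  have hfin : ∀ S : Set E1, volume (U ∩ S) ≠ ⊤ := fun S =>
    ne_top_of_le_ne_top ENNReal.one_ne_top ((measure_mono inter_subset_left).trans hU)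
  have hset : U ∩ {z : E1 | z 0 ≤ y 0} =
      (U ∩ {z : E1 | z 0 ≤ x 0}) ∪ (U ∩ {z : E1 | x 0 < z 0 ∧ z 0 ≤ y 0}) := by
    ext z
    simp only [mem_inter_iff, Set.mem_ofPred_eq, mem_union]
    constructor
    · rintro ⟨h1, h2⟩
      rcases le_or_gt (z 0) (x 0) with h | h
      · exact Or.inl ⟨h1, h⟩
      · exact Or.inr ⟨h1, h, h2⟩
    · rintro (⟨h1, h2⟩ | ⟨h1, h2, h3⟩)
      · exact ⟨h1, h2.trans hxy⟩
      · exact ⟨h1, h3⟩
  have hdisj : Disjoint (U ∩ {z : E1 | z 0 ≤ x 0}) {z : E1 | x 0 < z 0 ∧ z 0 ≤ y 0} := by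
    rw [Set.disjoint_left]
    rintro z ⟨_, h1⟩ ⟨h2, _⟩
    simp only [Set.mem_ofPred_eq] at h1
    exact absurd h2 (not_lt.2 h1)
  have hm : volume (U ∩ {z : E1 | z 0 ≤ y 0}) = volume (U ∩ {z : E1 | z 0 ≤ x 0}) +
      volume (U ∩ {z : E1 | x 0 < z 0 ∧ z 0 ≤ y 0}) := by
    rw [← measure_inter_add_diff (U ∩ {z : E1 | z 0 ≤ y 0}) (meas_le (x 0))]
    congr 1
    · congr 1
      ext z
      simp only [mem_inter_iff, Set.mem_ofPred_eq]
      constructor
      · rintro ⟨⟨h1, _⟩, h3⟩; exact ⟨h1, h3⟩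
      · rintro ⟨h1, h3⟩; exact ⟨⟨h1, h3.trans hxy⟩, h3⟩
    · congr 1
      ext z
      simp only [mem_inter_iff, Set.mem_ofPred_eq, mem_diff, not_le]
      constructor
      · rintro ⟨⟨h1, h2⟩, h3⟩; exact ⟨h1, h3, h2⟩
      · rintro ⟨h1, h2, h3⟩; exact ⟨⟨h1, h3⟩, h2⟩
  unfold phi
  rw [hm, ENNReal.toReal_add (hfin _) (hfin _)]
  ring

lemma phi_mono (hU : volume U ≤ 1) {x y : E1} (hxy : x 0 ≤ y 0) : phi U x ≤ phi U y := by
  have h1 := phi_sub U hU hxy
  have h2 : 0 ≤ (volume (U ∩ {z : E1 | x 0 < z 0 ∧ z 0 ≤ y 0})).toReal := ENNReal.toReal_nonneg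
  linarith

lemma phi_lip (hU : volume U ≤ 1) {x y : E1} (hxy : x 0 ≤ y 0) : phi U y - phi U x ≤ y 0 - x 0 := by
  rw [phi_sub U hU hxy]
  have h : volume (U ∩ {z : E1 | x 0 < z 0 ∧ z 0 ≤ y 0}) ≤ ENNReal.ofReal (y 0 - x 0) := by
    rw [← strip]; exact measure_mono inter_subset_right
  have h2 := ENNReal.toReal_mono ENNReal.ofReal_ne_top h
  rwa [ENNReal.toReal_ofReal (by linarith)] at h2

lemma phi_eq (hU : volume U ≤ 1) {x y : E1} (hxy : x 0 ≤ y 0)
    (hseg : ∀ z : E1, x 0 ≤ z 0 → z 0 ≤ y 0 → z ∈ U) : phi U y - phi U x = y 0 - x 0 := by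
  rw [phi_sub U hU hxy]
  have h : U ∩ {z : E1 | x 0 < z 0 ∧ z 0 ≤ y 0} = {z : E1 | x 0 < z 0 ∧ z 0 ≤ y 0} := by
    rw [inter_eq_right]
    rintro z ⟨h1, h2⟩
    exact hseg z h1.le h2
  rw [h, strip, ENNReal.toReal_ofReal (by linarith)]

noncomputable def f1 (x : U) : E1 := WithLp.toLp 2 (fun _ => phi U x)

lemma f1_apply (x : U) (i : Fin 1) : f1 U x i = phi U x := rfl

lemma dist_f1 (x y : U) : dist (f1 U x) (f1 U y) = |phi U x - phi U y| := by
  rw [E1_dist, f1_apply, f1_apply]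

lemma f1_norm (hU : volume U ≤ 1) (x : U) : ‖f1 U x‖ ≤ 1 := by
  have h0 : 0 ≤ phi U x := ENNReal.toReal_nonneg
  have h1 : phi U x ≤ 1 := by
    have h := (measure_mono (inter_subset_left (s := U) (t := {y : E1 | y 0 ≤ (x : E1) 0}))).trans hU
    have h2 := ENNReal.toReal_mono ENNReal.one_ne_top h
    simpa [phi] using h2
  rw [EuclideanSpace.norm_eq]
  simp only [f1_apply, Finset.univ_unique, Finset.sum_const, Finset.card_singleton, one_smul]
  rw [Real.norm_eq_abs, Real.sqrt_sq (abs_nonneg _), abs_of_nonneg h0]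
  exact h1

/-- Local expansion: near `x ∈ U` the map `phi` controls the distance. -/
lemma phi_local (hU : volume U ≤ 1) (hop : IsOpen U) (x : U) : ∃ δ > 0, ∀ ε, 0 < ε → ε < δ →
    ∀ y : E1, |phi U y - phi U x| < ε → |y 0 - (x : E1) 0| < ε := by
  obtain ⟨δ, hδ, hball⟩ := Metric.isOpen_iff.1 hop x x.2
  refine ⟨δ, hδ, fun ε h0 h1 y hy => ?_⟩
  by_contra hcon
  push Not at hcon
  rw [abs_lt] at hy
  rcases le_abs.1 hcon with h | h
  · set z : E1 := WithLp.toLp 2 (fun _ => (x : E1) 0 + ε) with hz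
    have hz0 : z 0 = (x : E1) 0 + ε := rfl
    have h2 := phi_eq U hU (x := x) (y := z) (by rw [hz0]; linarith) (by
      intro v hv1 hv2
      apply hball
      rw [Metric.mem_ball, E1_dist, abs_of_nonneg (by linarith)]
      rw [hz0] at hv2
      linarith)
    have h3 := phi_mono U hU (x := z) (y := y) (by rw [hz0]; linarith)
    rw [hz0] at h2
    linarith [hy.2]
  · set z : E1 := WithLp.toLp 2 (fun _ => (x : E1) 0 - ε) with hz
    have hz0 : z 0 = (x : E1) 0 - ε := rfl
    have h2 := phi_eq U hU (x := z) (y := x) (by rw [hz0]; linarith) (by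
      intro v hv1 hv2
      apply hball
      rw [Metric.mem_ball, E1_dist, abs_of_nonpos (by linarith)]
      rw [hz0] at hv1
      linarith)
    have h3 := phi_mono U hU (x := y) (y := z) (by rw [hz0]; linarith)
    rw [hz0] at h2
    linarith [hy.1]

lemma f1_isEmbedding (hU : volume U ≤ 1) (hop : IsOpen U) : IsEmbedding (f1 U) := by
  have hcont : Continuous (f1 U) := by
    refine LipschitzWith.continuous (K := 1) (LipschitzWith.of_dist_le_mul fun x y => ?_)
    rw [dist_f1, NNReal.coe_one, one_mul, Subtype.dist_eq, E1_dist]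
    rcases le_total ((x : E1) 0) ((y : E1) 0) with h | h
    · rw [abs_sub_comm, abs_sub_comm ((x : E1) 0), abs_of_nonneg (by linarith [phi_mono U hU h]),
        abs_of_nonneg (by linarith)]
      exact phi_lip U hU h
    · rw [abs_of_nonneg (by linarith [phi_mono U hU h]), abs_of_nonneg (by linarith)]
      exact phi_lip U hU h
  have hinj : Function.Injective (f1 U) := by
    intro x y hxy
    obtain ⟨δ, hδ, hloc⟩ := phi_local U hU hop x
    have h0 : phi U y = phi U x := by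
      have := congrArg (fun v : E1 => v 0) hxy
      exact this.symm
    have hz : (y : E1) 0 = (x : E1) 0 := by
      by_contra hne
      have hpos : 0 < |(y : E1) 0 - (x : E1) 0| := abs_pos.2 (sub_ne_zero.2 hne)
      have h1 := hloc (min (δ / 2) |(y : E1) 0 - (x : E1) 0|) (lt_min (by linarith) hpos)
        (lt_of_le_of_lt (min_le_left _ _) (by linarith)) y
        (by rw [h0, sub_self, abs_zero]; exact lt_min (by linarith) hpos)
      exact absurd h1 (not_lt.2 (min_le_right _ _))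
    exact Subtype.ext (E1_ext hz.symm)
  refine ⟨⟨?_⟩, hinj⟩
  have hind : IsInducing (f1 U) := by
    rw [isInducing_iff_nhds]
    intro x
    refine le_antisymm (hcont.tendsto x).le_comap ?_
    rw [(Metric.nhds_basis_ball.comap (f1 U)).le_basis_iff Metric.nhds_basis_ball]
    intro r hr
    obtain ⟨δ, hδ, hloc⟩ := phi_local U hU hop x
    refine ⟨min (δ / 2) r, lt_min (by linarith) hr, ?_⟩
    intro y hy
    rw [mem_preimage, Metric.mem_ball, dist_f1] at hy
    have h1 := hloc (min (δ / 2) r) (lt_min (by linarith) hr)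
      (lt_of_le_of_lt (min_le_left _ _) (by linarith)) y hy
    rw [Metric.mem_ball, Subtype.dist_eq, E1_dist]
    exact lt_of_lt_of_le h1 (min_le_right _ _)
  exact hind.eq_induced

lemma f1_len (hU : volume U ≤ 1) : LengthIncreasing U (f1 U) := by
  intro γ a b hab hc _
  have hiso : ∀ s ∈ Icc a b, ∀ t ∈ Icc a b,
      edist (f1 U (γ s)) (f1 U (γ t)) = edist (γ s : E1) (γ t : E1) := by
    have main : ∀ s ∈ Icc a b, ∀ t ∈ Icc a b, (γ s : E1) 0 ≤ (γ t : E1) 0 →
        |phi U (γ s) - phi U (γ t)| = |(γ s : E1) 0 - (γ t : E1) 0| := by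
      intro s hs t ht hle
      have hcont : ContinuousOn (fun r => (γ r : E1) 0) (uIcc s t) := by
        have h1 : ContinuousOn (fun r => (γ r : E1)) (Icc a b) := continuous_subtype_val.comp_continuousOn hc
        have h2 : Continuous fun v : E1 => v 0 := by fun_prop
        exact (h2.comp_continuousOn h1).mono (by
          intro r hr
          rw [mem_uIcc] at hr
          rcases hr with ⟨h3, h4⟩ | ⟨h3, h4⟩
          · exact ⟨hs.1.trans h3, h4.trans ht.2⟩
          · exact ⟨ht.1.trans h3, h4.trans hs.2⟩)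
      have hseg : ∀ z : E1, (γ s : E1) 0 ≤ z 0 → z 0 ≤ (γ t : E1) 0 → z ∈ U := by
        intro z h1 h2
        have h3 : z 0 ∈ uIcc ((γ s : E1) 0) ((γ t : E1) 0) := by
          rw [uIcc_of_le hle]; exact ⟨h1, h2⟩
        obtain ⟨r, -, hr⟩ := intermediate_value_uIcc hcont h3
        have : z = (γ r : E1) := E1_ext hr.symm
        rw [this]
        exact (γ r).2
      have h := phi_eq U hU hle hseg
      rw [abs_sub_comm, h, abs_sub_comm]
    intro s hs t ht
    rw [edist_dist, edist_dist, dist_f1, E1_dist]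
    congr 1
    rcases le_total ((γ s : E1) 0) ((γ t : E1) 0) with h | h
    · exact main s hs t ht h
    · rw [abs_sub_comm, abs_sub_comm ((γ s : E1) 0)]
      exact main t ht s hs h
  unfold len eVariationOn
  refine iSup_mono fun p => Finset.sum_le_sum fun i _ => ?_
  rw [hiso _ (p.2.2.2 _) _ (p.2.2.2 _)]

end one

/-- Guth's question, with the definitions of the problem file: the answer is yes, with
`ε_n = 1`. -/
theorem result (n : ℕ) (hn : 1 ≤ n) : ∃ ε : ENNReal, 0 < ε ∧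
    ∀ U : Set (EuclideanSpace ℝ (Fin n)), IsOpen U → volume U ≤ ε →
      ∃ f : U → EuclideanSpace ℝ (Fin n), IsEmbedding f ∧ (∀ x, ‖f x‖ ≤ 1) ∧
        LengthIncreasing U f := by
  refine ⟨1, one_pos, fun U hop hU => ?_⟩
  obtain ⟨m, rfl⟩ : ∃ m, n = m + 1 := ⟨n - 1, by omega⟩
  rcases m with _ | k
  · exact ⟨f1 U, f1_isEmbedding U hU hop, f1_norm U hU, f1_len U hU⟩
  · refine ⟨fun x => G k x, (G_isEmbedding k).comp IsEmbedding.subtypeVal,
      fun x => G_norm_le k x, ?_⟩
    intro γ a b hab hc hv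
    by_cases h : ∃ s ∈ Icc a b, ∃ t ∈ Icc a b, (γ s : EuclideanSpace ℝ (Fin (k + 2))) ≠ γ t
    · have h1 := G_len k (fun t => (γ t : EuclideanSpace ℝ (Fin (k + 2)))) a b
        (continuous_subtype_val.comp_continuousOn hc) hv h
      rw [h1]
      exact le_top
    · push Not at h
      have h1 : len (fun t => (γ t : EuclideanSpace ℝ (Fin (k + 2)))) a b = 0 := by
        refine eVariationOn.constant_on ?_
        rintro _ ⟨s, hs, rfl⟩ _ ⟨t, ht, rfl⟩
        exact h s hs t ht
      rw [h1]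
      exact zero_le

end Pool.Agent.Results.MP_ecd4e3_gt.WildBall
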